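import Mathlib

set_option autoImplicit false
open Finset

/-! # Sidon sets close to a perfect difference set

Let `G` be an abelian group and `D` a finite set such that every nonzero element of `G` is a difference of exactly
one ordered pair of elements of `D`. A Sidon set which contains more than three quarters of `D` is a subset of
`D`. -/

namespace Pool.Agent.Results.MP_7dd1d4_co.NearDifferenceSet

/-- **A Sidon set which contains more than three quarters of a perfect difference set is a subset of it.** -/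
theorem result {G : Type*} [AddCommGroup G] [DecidableEq G] (D S : Finset G)
    (hD : ∀ x : G, x ≠ 0 → ∃! q : G × G, q.1 ∈ D ∧ q.2 ∈ D ∧ q.1 - q.2 = x)
    (hS : ∀ a ∈ S, ∀ b ∈ S, ∀ c ∈ S, ∀ d ∈ S, a + b = c + d → (a = c ∧ b = d) ∨ (a = d ∧ b = c))
    (hcard : 3 * D.card < 4 * (S ∩ D).card) : S ⊆ D := by
  intro x hx
  by_contra hxD
  have hne : ∀ s ∈ D, x - s ≠ 0 := fun s hs h => hxD (by rwa [sub_eq_zero.1 h])
  have hex : ∀ s : G, ∃ q : G × G, s ∈ D → q.1 ∈ D ∧ q.2 ∈ D ∧ s + q.1 = x + q.2 := by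
    intro s
    by_cases hs : s ∈ D
    · obtain ⟨q, ⟨h1, h2, h3⟩, -⟩ := hD (x - s) (hne s hs)
      refine ⟨q, fun _ => ⟨h1, h2, ?_⟩⟩
      have : q.1 = x - s + q.2 := by rw [← h3]; abel
      rw [this]; abel
    · exact ⟨(0, 0), fun h => absurd h hs⟩
  choose q hq using hex
  set f : G → G := fun s => (q s).1 with hf
  set g : G → G := fun s => (q s).2 with hg
  have hf1 : ∀ s ∈ D, f s ∈ D := fun s hs => (hq s hs).1
  have hg1 : ∀ s ∈ D, g s ∈ D := fun s hs => (hq s hs).2.1
  have he : ∀ s ∈ D, s + f s = x + g s := fun s hs => (hq s hs).2.2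
  -- `D` is a Sidon set
  have hDs : ∀ a ∈ D, ∀ b ∈ D, ∀ c ∈ D, ∀ d ∈ D, a + b = c + d → (a = c ∧ b = d) ∨ (a = d ∧ b = c) := by
    intro a ha b hb c hc d hd h
    by_cases hac : a = c
    · left
      subst hac
      exact ⟨rfl, add_left_cancel h⟩
    · right
      have h1 : a - c ≠ 0 := sub_ne_zero.2 hac
      have h2 : d - b = a - c := by
        rw [sub_eq_sub_iff_add_eq_add, add_comm d c, ← h]
      have key := (hD (a - c) h1).unique (y₁ := (a, c)) (y₂ := (d, b)) ⟨ha, hc, rfl⟩ ⟨hd, hb, h2⟩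
      simp only [Prod.mk.injEq] at key
      exact ⟨key.1, key.2.symm⟩
  -- `f` is injective on `D`
  have hinj : ∀ s ∈ D, ∀ t ∈ D, f s = f t → s = t := by
    intro s hs t ht h
    have h1 := he s hs
    have h2 := he t ht
    rw [← h] at h2
    -- s - g s = t - g t = x - f s
    have hn : x - f s ≠ 0 := hne _ (hf1 s hs)
    have k1 : s - g s = x - f s := by
      rw [sub_eq_sub_iff_add_eq_add, h1]
    have k2 : t - g t = x - f s := by
      rw [sub_eq_sub_iff_add_eq_add, h2]
    have key := (hD _ hn).unique (y₁ := (s, g s)) (y₂ := (t, g t)) ⟨hs, hg1 s hs, k1⟩ ⟨ht, hg1 t ht, k2⟩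
    simp only [Prod.mk.injEq] at key
    exact key.1
  -- the fibres of `g` have at most two elements
  have hfib : ∀ c ∈ D \ S, (D.filter fun s => g s = c).card ≤ 2 := by
    intro c _
    by_cases hz : (D.filter fun s => g s = c).Nonempty
    swap
    · rw [not_nonempty_iff_eq_empty.1 hz]; simp
    obtain ⟨s, hs⟩ := hz
    rw [mem_filter] at hs
    refine (card_le_card (t := {s, f s}) fun t ht => ?_).trans card_le_two
    rw [mem_filter] at ht
    have h1 : t + f t = s + f s := by rw [he t ht.1, he s hs.1, ht.2, hs.2]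
    rw [mem_insert, mem_singleton]
    rcases hDs t ht.1 (f t) (hf1 t ht.1) s hs.1 (f s) (hf1 s hs.1) h1 with h | h
    · exact Or.inl h.1
    · exact Or.inr h.1
  -- the three positions cannot all be in `S`
  have hcov : D ⊆ (D \ S) ∪ (D.filter fun s => f s ∈ D \ S) ∪ D.filter fun s => g s ∈ D \ S := by
    intro s hs
    by_contra hn
    simp only [mem_union, mem_sdiff, mem_filter, not_or, not_and, not_not] at hn
    obtain ⟨⟨h1, h2⟩, h3⟩ := hn
    have a1 : s ∈ S := h1 hs
    have a2 : f s ∈ S := h2 hs (hf1 s hs)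
    have a3 : g s ∈ S := h3 hs (hg1 s hs)
    rcases hS s a1 (f s) a2 x hx (g s) a3 (he s hs) with h | h
    · exact hxD (h.1 ▸ hs)
    · exact hxD (h.2 ▸ hf1 s hs)
  have c1 : (D.filter fun s => f s ∈ D \ S).card ≤ (D \ S).card :=
    card_le_card_of_injOn f (fun s hs => (mem_filter.1 hs).2) fun s hs t ht h =>
      hinj s (mem_filter.1 hs).1 t (mem_filter.1 ht).1 h
  have c2 : (D.filter fun s => g s ∈ D \ S).card ≤ 2 * (D \ S).card := by
    refine card_le_mul_card_image_of_maps_to (f := g) (fun s hs => (mem_filter.1 hs).2) 2 fun c hc => ?_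
    refine (card_le_card fun s hs => ?_).trans (hfib c hc)
    rw [mem_filter] at hs ⊢
    exact ⟨(mem_filter.1 hs.1).1, hs.2⟩
  have c3 := card_le_card hcov
  have c4 := card_union_le ((D \ S) ∪ (D.filter fun s => f s ∈ D \ S)) (D.filter fun s => g s ∈ D \ S)
  have c5 := card_union_le (D \ S) (D.filter fun s => f s ∈ D \ S)
  have c6 := card_sdiff_add_card_inter D S
  rw [inter_comm] at c6
  omega

end Pool.Agent.Results.MP_7dd1d4_co.NearDifferenceSet
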